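import Pool.Agent.Helper19.ZH3.Toks

/-!
# Project ZH (MP_f907b0), second machine: skipping, copying of trees, back to the first digit

`DI n pos ds`: the digit flags `ds` after `pos` digits of `n` have been read.
-/

set_option autoImplicit false

namespace Pool.Agent.Helper19.ZH3

open Pool.Agent.Helper19.ZH

open Pool.Agent.Helper62.ZH (Tree)

variable {prog : List Tok}

/-! ## skip -/

/-- In skip mode, from the bit left of the need to the bit `v` of cell 0. -/
theorem toNS (p k : ℕ) (cs : List Cell) (hne : cs ≠ []) :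
    Reach (del prog) ⟨.Gp, cons false (cons false (rep k true blank)), rep (p + 1) true (HR cs)⟩ (Vc .NV (Zs (p + 1) k) [] cs) :=
  walk_arr prog (w := St.Gp) (q := St.NV) (by rfl) (by rfl) (p + 1) _ _ hne

theorem first_sc {p : ℕ} (ht : prog[p]? = some .sc) (cs : List Cell) (hne : cs ≠ []) :
    Reach (del prog) (Home (.C 0) (Z0 (p + 1)) cs) (Vc .NV (Zs (p + 1) 1) [] cs) := by
  have e : Z0 (p + 1) = rep (p + 1) true (cons false (cons false (cons false blank))) := by simp [Z0]
  rw [e]
  refine (fetch ht _ _).trans ?_
  refine (Reach1.CL_left (del_C ht)).reach.trans ?_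
  refine (Reach1.CL_left (w := false) (q' := St.O 1) (by rfl)).reach.trans ?_
  rw [show (blank : Str) = cons false blank from cons_blank.symm]
  refine (Reach1.CL_right (w := true) (q' := St.RR true) (by rfl)).reach.trans ?_
  refine (Reach1.right (w := false) (q' := St.S true) (by rfl)).reach.trans ?_
  refine (Reach1.right (w := false) (q' := St.Gp) (by rfl)).reach.trans ?_
  have := toNS (prog := prog) p 1 cs hne
  rw [rep_succ, rep_zero] at this
  rwa [cons_blank]

theorem arrS_one (p k : ℕ) (cs : List Cell) (hne : cs ≠ []) :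
    Reach (del prog) (Home (.P true) (Zs (p + 1) (k + 1)) cs) (Vc .NV (Zs (p + 1) (k + 2)) [] cs) := by
  rw [home_eq, Zs]
  refine (walk_left (q := St.P true) (by rfl) (p + 1) _ _).trans ?_
  refine (Reach1.CL_left (w := false) (q' := St.Q true) (by rfl)).reach.trans ?_
  refine (Reach1.CL_left (w := false) (q' := St.q true) (by rfl)).reach.trans ?_
  refine (walk_left (q := St.q true) (by rfl) (k + 1) _ _).trans ?_
  rw [show (blank : Str) = cons false blank from cons_blank.symm]
  refine (Reach1.CL_right (w := true) (q' := St.RR true) (by rfl)).reach.trans ?_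
  refine (walk_right (q := St.RR true) (by rfl) (k + 1) _ _).trans ?_
  rw [← rep_succ']
  refine (Reach1.right (w := false) (q' := St.S true) (by rfl)).reach.trans ?_
  refine (Reach1.right (w := false) (q' := St.Gp) (by rfl)).reach.trans ?_
  exact toNS p (k + 2) cs hne

theorem arrS_zero (p k : ℕ) (cs : List Cell) (hne : cs ≠ []) :
    Reach (del prog) (Home (.P false) (Zs (p + 1) (k + 2)) cs) (Vc .NV (Zs (p + 1) (k + 1)) [] cs) := by
  rw [home_eq, Zs]
  refine (walk_left (q := St.P false) (by rfl) (p + 1) _ _).trans ?_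
  refine (Reach1.CL_left (w := false) (q' := St.Q false) (by rfl)).reach.trans ?_
  refine (Reach1.CL_left (w := false) (q' := St.q false) (by rfl)).reach.trans ?_
  refine (walk_left (q := St.q false) (by rfl) (k + 2) _ _).trans ?_
  rw [show (blank : Str) = cons false blank from cons_blank.symm]
  refine (Reach1.CL_right (w := false) (q' := St.X) (by rfl)).reach.trans ?_
  rw [rep_succ, rep_succ, cons_blank]
  refine (Reach1.right (w := false) (q' := St.Y) (by rfl)).reach.trans ?_
  refine (Reach1.right (w := true) (q' := St.RR false) (by rfl)).reach.trans ?_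
  refine (walk_right (q := St.RR false) (by rfl) k _ _).trans ?_
  rw [cons_blank, ← rep_succ']
  refine (Reach1.right (w := false) (q' := St.S false) (by rfl)).reach.trans ?_
  refine (Reach1.right (w := false) (q' := St.Gp) (by rfl)).reach.trans ?_
  exact toNS p (k + 1) cs hne

/-- The last digit of a skipped tree: the token goes on in copy mode. -/
theorem arrS_last (p : ℕ) (cs : List Cell) (hne : cs ≠ []) :
    Reach (del prog) (Home (.P false) (Zs (p + 1) 1) cs) (Vc .NV (Zc (p + 1) 1) [] cs) := by
  rw [home_eq, Zs]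
  refine (walk_left (q := St.P false) (by rfl) (p + 1) _ _).trans ?_
  refine (Reach1.CL_left (w := false) (q' := St.Q false) (by rfl)).reach.trans ?_
  refine (Reach1.CL_left (w := false) (q' := St.q false) (by rfl)).reach.trans ?_
  rw [rep_succ 0 true blank, rep_zero]
  refine (Reach1.CL_left (w := true) (q' := St.q false) (by rfl)).reach.trans ?_
  rw [show (blank : Str) = cons false blank from cons_blank.symm]
  refine (Reach1.CL_right (w := false) (q' := St.X) (by rfl)).reach.trans ?_
  refine (Reach1.right (w := false) (q' := St.Y) (by rfl)).reach.trans ?_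
  refine (Reach1.right (w := true) (q' := St.S false) (by rfl)).reach.trans ?_
  refine (Reach1.right (w := false) (q' := St.Gp) (by rfl)).reach.trans ?_
  simp only [cons_blank]
  exact walk_arr prog (w := St.Gp) (q := St.NV) (by rfl) (by rfl) (p + 1) _ _ hne

/-! ## the loops -/

/-- What is left after a tree has been copied. -/
def aft (p k : ℕ) (cs : List Cell) : C St := if k = 0 then Home (.C 0) (Z0 (p + 2)) cs else Vc .NV (Zc (p + 1) k) [] cs

/-- What is left after a tree has been skipped. -/
def aftS (p k : ℕ) (cs : List Cell) : C St := if k = 0 then Vc .NV (Zc (p + 1) 1) [] cs else Vc .NV (Zs (p + 1) k) [] cs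

/-- A tree is copied. -/
theorem copy_tree {p : ℕ} {t₀ : Tok} (ht : prog[p]? = some t₀) (hk : t₀.cpy) {n : ℕ} (hn : 0 < n) {vs : List Bool} (hvs : vs.length = n)
    {i j : ℕ} {t : Tree} (h : Rd (fun i => n.testBit i) i t j) (k : ℕ) (as ds : List Bool) (has : as.length = n) (hds : DI n i ds) :
    ∃ ds', DI n j ds' ∧ Reach (del prog) (Vc .NV (Zc (p + 1) (k + 1)) [] (mk vs as ds)) (aft p k (mk vs (em as (bits t)) ds')) := by
  have hne : vs ≠ [] := by
    rintro rfl
    simp at hvs
    omega
  induction h generalizing k as ds with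
  | @o i h0 =>
    obtain ⟨h1, h2⟩ := hds.next hn
    refine ⟨_, h1, ?_⟩
    have h3 := digit prog (Zc (p + 1) (k + 1)) (has.trans hvs.symm) (hds.len.trans hvs.symm) hne
    rw [h2, show n.testBit i = false from h0] at h3
    refine h3.trans ?_
    have hne' := mk_ne_nil (vs := vs) (has.trans hvs.symm) (h1.len.trans hvs.symm) hne
    cases k with
    | zero =>
      refine (arr_last p _ hne').trans ?_
      exact emit prog false _ (has.trans hvs.symm) (h1.len.trans hvs.symm) hne
    | succ k =>
      refine (arr_zero p k _ hne').trans ?_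
      refine (emit prog false _ (has.trans hvs.symm) (h1.len.trans hvs.symm) hne).trans ?_
      exact again ht hk _ (mk_ne_nil (by simpa using has.trans hvs.symm) (h1.len.trans hvs.symm) hne)
  | @p i j k' a b h0 _ _ iha ihb =>
    obtain ⟨h1, h2⟩ := hds.next hn
    have h3 := digit prog (Zc (p + 1) (k + 1)) (has.trans hvs.symm) (hds.len.trans hvs.symm) hne
    rw [h2, show n.testBit i = true from h0] at h3
    have hne' := mk_ne_nil (vs := vs) (has.trans hvs.symm) (h1.len.trans hvs.symm) hne
    obtain ⟨da, ha1, ha2⟩ := iha (k + 1) (sv true as) _ (by simpa using has) h1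
    obtain ⟨db, hb1, hb2⟩ := ihb k (em (sv true as) (bits a)) da (by simpa using has) ha1
    refine ⟨db, hb1, ?_⟩
    rw [bits, em_cons, em_append]
    refine h3.trans ?_
    refine (arr_one p k _ hne').trans ?_
    refine (emit prog true _ (has.trans hvs.symm) (h1.len.trans hvs.symm) hne).trans ?_
    refine (again ht hk _ (mk_ne_nil (by simpa using has.trans hvs.symm) (h1.len.trans hvs.symm) hne)).trans ?_
    exact ha2.trans hb2

/-- A tree is skipped. -/
theorem skip_tree {p : ℕ} {n : ℕ} (hn : 0 < n) {vs : List Bool} (hvs : vs.length = n)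
    {i j : ℕ} {t : Tree} (h : Rd (fun i => n.testBit i) i t j) (k : ℕ) (as ds : List Bool) (has : as.length = n) (hds : DI n i ds) :
    ∃ ds', DI n j ds' ∧ Reach (del prog) (Vc .NV (Zs (p + 1) (k + 1)) [] (mk vs as ds)) (aftS p k (mk vs as ds')) := by
  have hne : vs ≠ [] := by
    rintro rfl
    simp at hvs
    omega
  induction h generalizing k ds with
  | @o i h0 =>
    obtain ⟨h1, h2⟩ := hds.next hn
    refine ⟨_, h1, ?_⟩
    have h3 := digit prog (Zs (p + 1) (k + 1)) (has.trans hvs.symm) (hds.len.trans hvs.symm) hne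
    rw [h2, show n.testBit i = false from h0] at h3
    refine h3.trans ?_
    have hne' := mk_ne_nil (vs := vs) (has.trans hvs.symm) (h1.len.trans hvs.symm) hne
    cases k with
    | zero => exact arrS_last p _ hne'
    | succ k => exact arrS_zero p k _ hne'
  | @p i j k' a b h0 _ _ iha ihb =>
    obtain ⟨h1, h2⟩ := hds.next hn
    have h3 := digit prog (Zs (p + 1) (k + 1)) (has.trans hvs.symm) (hds.len.trans hvs.symm) hne
    rw [h2, show n.testBit i = true from h0] at h3
    have hne' := mk_ne_nil (vs := vs) (has.trans hvs.symm) (h1.len.trans hvs.symm) hne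
    obtain ⟨da, ha1, ha2⟩ := iha (k + 1) _ h1
    obtain ⟨db, hb1, hb2⟩ := ihb k da ha1
    refine ⟨db, hb1, ?_⟩
    refine h3.trans ?_
    exact (arrS_one p k _ hne').trans (ha2.trans hb2)

/-- `k` trees are copied. -/
theorem copy_trees {p : ℕ} {t₀ : Tok} (ht : prog[p]? = some t₀) (hk : t₀.cpy) {n : ℕ} (hn : 0 < n) {vs : List Bool} (hvs : vs.length = n)
    (ts : List Tree) {i j : ℕ} (h : Rds (fun i => n.testBit i) i ts j) (hne : ts ≠ []) (as ds : List Bool) (has : as.length = n) (hds : DI n i ds) :
    ∃ ds', DI n j ds' ∧ Reach (del prog) (Vc .NV (Zc (p + 1) ts.length) [] (mk vs as ds)) (Home (.C 0) (Z0 (p + 2)) (mk vs (em as (bitss ts)) ds')) := by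
  induction ts generalizing i as ds with
  | nil => exact absurd rfl hne
  | cons t ts ih =>
    cases h with
    | cons h1 h2 =>
      obtain ⟨d1, hd1, hr1⟩ := copy_tree ht hk hn hvs h1 ts.length as ds has hds
      cases ts with
      | nil =>
        cases h2
        refine ⟨d1, hd1, ?_⟩
        have e : bitss [t] = bits t := by simp [bitss]
        rw [e]
        exact hr1
      | cons t' ts =>
        obtain ⟨d2, hd2, hr2⟩ := ih h2 (by simp) (em as (bits t)) d1 (by simpa using has) hd1
        refine ⟨d2, hd2, ?_⟩
        rw [bitss, em_append]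
        refine hr1.trans ?_
        rw [aft, if_neg (by simp)]
        exact hr2

/-! ## rewind -/

/-- Back to the first digit. -/
theorem tok_rw {p : ℕ} (ht : prog[p]? = some .rw) {vs as ds : List Bool} (h1 : as.length = vs.length) (h2 : ds.length = vs.length) (h : vs ≠ []) (hl : ds.getLast? = some false) :
    Reach (del prog) (Home (.C 0) (Z0 (p + 1)) (mk vs as ds)) (Home (.C 0) (Z0 (p + 2)) (mk vs as (tt vs))) := by
  have e : Z0 (p + 1) = rep (p + 1) true (cons false blank) := by simp [Z0]
  rw [e]
  refine (fetch ht _ _).trans ?_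
  refine (Reach1.CL_right (del_C ht)).reach.trans ?_
  have hne := mk_ne_nil h1 h2 h
  refine (walk_arr prog (w := St.Wr) (q := St.rV) (by rfl) (by rfl) (p + 1) _ _ hne).trans ?_
  have e2 : rep (p + 1) true (cons true blank) = Z0 (p + 2) := by rw [← rep_succ']; rfl
  rw [e2]
  have h3 := (pass_r prog).run (mk vs as ds) hne false (Z0 (p + 2)) [] (fun _ _ => trivial)
  rw [scan_const (fun (_ : Bool) (c : Cell) => c.d) (fun c => (⟨c.v, c.a, true⟩ : Cell)), map_r h1 h2, List.nil_append, fin_d h1 h2 hl] at h3
  refine h3.trans ?_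
  refine (turn (q' := St.NLd) (by rfl)).reach.trans ?_
  have := nl_home prog (Z0 (p + 2)) (mk vs as (tt vs)) [] (mk_ne_nil h1 (by simp) h)
  rwa [List.append_nil] at this

end Pool.Agent.Helper19.ZH3
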