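import Pool.Agent.Helper19.ZH3.Run

/-!
# Project ZH (MP_f907b0), second machine: from the end of a test to the next test
-/

set_option autoImplicit false

namespace Pool.Agent.Helper19.ZH3

open Pool.Agent.Helper19.ZH

variable {prog : List Tok}

/-- From the restart configuration to the bit `m`. -/
theorem restart (cs : List Cell) (hne : cs ≠ []) : Reach1 (del prog) (Home (.C 0) blank cs) (Vc .Tv (Z0 1) [] cs) := by
  obtain ⟨c, cs, rfl⟩ := List.exists_cons_of_ne_nil hne
  rw [home_eq, show (blank : Str) = cons false blank from cons_blank.symm]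
  refine (Reach1.CL_right (w := true) (q' := St.Er) (by rfl)).trans ?_
  exact Reach1.right (w := false) (q' := St.Tv) (by rfl)

/-- The rewind pass that starts at the bit `a` of cell 0. -/
theorem rA_run (L : Str) (cs : List Cell) (h : cs ≠ []) :
    Reach (del prog) (Ac .rA L [] cs) (Ec (.rE (ld cs)) L (cs.map (fun c => (⟨c.v, c.a, true⟩ : Cell))) []) := by
  have h0 := (pass_r prog).run cs h false L [] (fun _ _ => trivial)
  rw [fin_ld h, scan_const (fun (_ : Bool) (c : Cell) => c.d) (fun c => (⟨c.v, c.a, true⟩ : Cell)), List.nil_append] at h0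
  obtain ⟨c, cs, rfl⟩ := List.exists_cons_of_ne_nil h
  refine Reach.of_step (c := Vc (.rV) L [] (c :: cs)) ?_ h0 (by simp [Vc, Ec])
  rcases c with ⟨v, a, d⟩
  cases v <;> rfl

/-- A new cell. -/
theorem append_cell (L : Str) (cs : List Cell) (h : cs ≠ []) : Reach (del prog) (Ec (.rE true) L cs []) (Home (.C 0) L (cs ++ [⟨false, true, true⟩])) := by
  have h1 : Reach (del prog) (Ec (.rE true) L cs []) (Ec (.RE false) L (cs ++ [⟨false, true, true⟩]) []) := by
    rw [Ec, Ec, lefts_snoc, eb_of_ne h]
    exact ⟨4, rfl⟩
  refine h1.trans ?_
  refine (turn (q' := .NLd) (by rfl)).reach.trans ?_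
  have := nl_home prog L (cs ++ [⟨false, true, true⟩]) [] (by simp)
  rwa [List.append_nil] at this

/-- No violation: the next string is one bit longer. -/
theorem go_append (b : List Bool) : Reach1 (del prog) (Home (.C 0) blank (Cln false b)) (Home (.C 0) (Z0 1) (Cln true (b ++ [false]))) := by
  refine (restart _ (cln_ne_nil _ _)).trans_reach ?_
  have h0 : Reach (del prog) (Vc .Tv (Z0 1) [] (Cln false b)) (Ac .rA (Z0 1) [] (Cln true b)) := by
    rw [cln_cons, cln_cons]
    exact (Reach1.right (w := true) (q' := St.rA) (by rfl)).reach
  refine h0.trans ((rA_run _ _ (cln_ne_nil _ _)).trans ?_)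
  rw [ld_cln]
  have e : (Cln true b).map (fun c => (⟨c.v, c.a, true⟩ : Cell)) = Cln true b := by
    rw [cln_cons]
    simp [Function.comp_def]
  rw [e]
  refine (append_cell _ _ (cln_ne_nil _ _)).trans ?_
  have e2 : Cln true b ++ [⟨false, true, true⟩] = Cln true (b ++ [false]) := by
    rw [cln_cons, cln_cons]
    simp
  rw [e2]
  exact Reach.refl _

/-- The carry stops at a cell with `v = 0`. -/
theorem carry_stop (L : Str) (pre post : List Cell) (hne : pre ≠ []) :
    Reach (del prog) (Dc .I3 L (pre ++ [⟨false, true, true⟩]) post) (Home (.C 0) L (pre ++ ⟨true, true, true⟩ :: post)) := by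
  have h1 : Reach (del prog) (Dc .I3 L (pre ++ [⟨false, true, true⟩]) post) (Dc .NLd L pre (⟨true, true, true⟩ :: post)) := by
    rw [Dc, lefts_snoc, eb_of_ne hne]
    exact ⟨4, rfl⟩
  exact h1.trans (nl_home prog L pre _ hne)

/-- The carry. -/
theorem carry (L : Str) (pre : List Cell) (k : ℕ) (hne : pre ≠ []) :
    Reach (del prog) (Dc .I3 L (pre ++ ⟨false, true, true⟩ :: List.replicate k ⟨true, true, true⟩) [])
      (Home (.C 0) L (pre ++ ⟨true, true, true⟩ :: List.replicate k ⟨false, true, true⟩)) := by
  cases k with
  | zero => exact carry_stop L pre [] hne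
  | succ k =>
    have h1 := (pass_I prog).run (List.replicate (k + 1) ⟨true, true, true⟩) (by simp) () L (pre ++ [⟨false, true, true⟩]) [] (fun c hc => List.eq_of_mem_replicate hc)
    rw [scan_const (fun (i : Unit) (_ : Cell) => i) (fun _ => (⟨false, true, true⟩ : Cell)), List.append_nil, List.append_assoc, List.singleton_append,
      List.map_reverse, List.reverse_reverse, List.map_replicate] at h1
    refine h1.trans ?_
    refine Reach.trans ?_ (carry_stop L pre (List.replicate (k + 1) ⟨false, true, true⟩) hne)
    rw [List.replicate_succ, Ec, eb_append_singleton]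
    exact (Reach1.to_left (w := true) (q' := St.I3) (by rfl)).reach

/-- The machine comes to the only real undefined transition. -/
def Hlt (prog : List Tok) (c : C St) : Prop := ∃ L R, Reach (del prog) c ⟨.I2, L, cons false R⟩

theorem reach_hlt {c d : C St} (h : Reach (del prog) c d) (h' : Hlt prog d) : Hlt prog c := by
  obtain ⟨L, R, hr⟩ := h'
  exact ⟨L, R, h.trans hr⟩

/-- The carry leaves the array: the machine halts. -/
theorem carry_halt (L : Str) (k : ℕ) : Hlt prog (Dc .I3 L (List.replicate (k + 1) ⟨true, true, true⟩) []) := by
  have h1 := (pass_I prog).run (List.replicate (k + 1) ⟨true, true, true⟩) (by simp) () L [] [] (fun c hc => List.eq_of_mem_replicate hc)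
  rw [scan_const (fun (i : Unit) (_ : Cell) => i) (fun _ => (⟨false, true, true⟩ : Cell)), List.append_nil, List.nil_append,
    List.map_reverse, List.reverse_reverse, List.map_replicate] at h1
  rw [List.replicate_succ (a := (⟨false, true, true⟩ : Cell)), Ec] at h1
  exact ⟨_, _, h1⟩

/-- From the restart configuration to the carry. -/
theorem to_carry (b : List Bool) : Reach1 (del prog) (Home (.C 0) blank (Cln true b)) (Dc .I3 (Z0 1) (Cln true b) []) := by
  refine (restart _ (cln_ne_nil _ _)).trans_reach ?_
  have h0 : Reach (del prog) (Vc .Tv (Z0 1) [] (Cln true b)) (Ac .RA (Z0 1) [] (Cln true b)) := by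
    rw [cln_cons]
    exact (Reach1.right (w := true) (q' := St.RA) (by rfl)).reach
  have h1 := ra_run (prog := prog) (Z0 1) [] (Cln true b) (cln_ne_nil _ _)
  rw [ld_cln, List.nil_append] at h1
  have e : (Cln true b).map cln = Cln true b := by
    rw [cln_cons]
    simp [Function.comp_def, cln]
  rw [e] at h1
  exact h0.trans (h1.trans (turn (by rfl)).reach)

/-- Violation: the string is incremented, or the machine halts. -/
theorem go_inc (b : List Bool) :
    (∃ c, inc b.reverse = some c ∧ Reach1 (del prog) (Home (.C 0) blank (Cln true b)) (Home (.C 0) (Z0 1) (Cln true c.reverse))) ∨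
      (inc b.reverse = none ∧ Hlt prog (Home (.C 0) blank (Cln true b))) := by
  rcases last_zero b with h | ⟨c, k, rfl⟩
  · right
    constructor
    · rw [h, List.reverse_replicate]
      have := inc_ones b.length []
      rw [List.append_nil] at this
      rw [this]
      rfl
    · refine reach_hlt (to_carry b).reach ?_
      have e : Cln true b = List.replicate (b.length + 1) ⟨true, true, true⟩ := by
        rw [cln_cons, h, List.map_replicate, ← List.replicate_succ]
        simp
      rw [e]
      exact carry_halt _ _
  · left
    refine ⟨List.replicate k false ++ true :: c.reverse, ?_, ?_⟩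
    · have e : (c ++ false :: List.replicate k true).reverse = List.replicate k true ++ false :: c.reverse := by
        simp
      rw [e, inc_ones]
      rfl
    · refine (to_carry _).trans_reach ?_
      have e : Cln true (c ++ false :: List.replicate k true) =
          (⟨true, true, true⟩ :: (c.map fun v => (⟨v, true, true⟩ : Cell))) ++ ⟨false, true, true⟩ :: List.replicate k ⟨true, true, true⟩ := by
        rw [cln_cons]
        simp
      rw [e]
      refine (carry (Z0 1) _ k (List.cons_ne_nil _ _)).trans ?_
      have e2 : (⟨true, true, true⟩ :: (c.map fun v => (⟨v, true, true⟩ : Cell))) ++ ⟨true, true, true⟩ :: List.replicate k ⟨false, true, true⟩ =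
          Cln true (List.replicate k false ++ true :: c.reverse).reverse := by
        rw [cln_cons]
        simp
      rw [e2]
      exact Reach.refl _

/-- The start. -/
theorem start_home : Reach (del prog) ⟨.RV, blank, blank⟩ (Home (.C 0) (Z0 1) (Cln true [false])) := by
  have h1 : Reach (del prog) ⟨.RV, blank, blank⟩ (Home (.C 0) blank (Cln false [])) := by
    have e : Ec (.RE false) blank [⟨false, true, true⟩] [] = (⟨.RE false, cons true (cons true (cons false (cons false blank))), blank⟩ : C St) := rfl
    have h0 : Reach (del prog) ⟨.RV, blank, blank⟩ (Ec (.RE false) blank [⟨false, true, true⟩] []) := by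
      rw [e, cons_blank]
      exact ⟨3, rfl⟩
    refine h0.trans ?_
    refine (turn (q' := .NLd) (by rfl)).reach.trans ?_
    have := nl_home prog blank [⟨false, true, true⟩] [] (by simp)
    rwa [List.append_nil] at this
  exact h1.trans (go_append []).reach

end Pool.Agent.Helper19.ZH3
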