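import Pool.Agent.Helper19.ZH3.End

/-!
# Project ZH (MP_f907b0), second machine: the machine and the search

`loop_iff`: a machine `δ'` that extends `del prog` (after identification of states) stops, started on the blank tape, iff the search of `Inc.lean` ends; `viol b` is the result of the test of `b`
(first bit first).
`halts_iff_of`: the same with the two facts about the text that come from logic.
-/

set_option autoImplicit false

namespace Pool.Agent.Helper19.ZH3

open Pool.Agent.Helper19.ZH

/-- The configuration of a node of the search (last bit first). -/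
def node (c : List Bool) : C St := Home (.C 0) (Z0 1) (Cln true c.reverse)

section

variable {prog : List Tok} {τ : Type} {δ' : τ → Bool → Option (Bool × Bool × τ)} {f : St → τ} {ok : St → Prop}

theorem node_q (c : List Bool) : (node c).q = .C 0 := by
  rw [node, cln_cons]
  rfl

/-- The machine and the search. -/
theorem loop_iff (h : ∀ q, ok q → ∀ b w d r, del prog q b = some (w, d, r) → ok r ∧ δ' (f q) b = some (w, d, f r)) (hRV : ok .RV) (hC : ok (.C 0))
    (hI : δ' (f .I2) false = none) (hl : Tok.lit true ∈ prog) {viol : List Bool → Bool} (hv : ∀ b, Runs prog b 0 (true, 0, []) (viol b)) :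
    Stops δ' ⟨f .RV, blank, blank⟩ ↔ ∃ k, its2 (fun c => viol c.reverse = true) k (some [false]) = none := by
  have h0 : Reach δ' ⟨f .RV, blank, blank⟩ (mapC f (node [false])) := (start_home (prog := prog)).map h (c := ⟨.RV, blank, blank⟩) hRV
  rw [h0.stops_iff]
  -- one test
  have ht : ∀ c, Reach (del prog) (node c) (Home (.C 0) blank (Cln (viol c.reverse) c.reverse)) := by
    intro c
    exact runs_ok hl (hv _) (ds := List.replicate (c.reverse.length + 1) true) (DI.zero _)
  refine stops_iff (δ := δ') (step2 (fun c => viol c.reverse = true)) (fun c => mapC f (node c)) (fun _ => True) ?_ ?_ [false] trivial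
  · intro c c' _ hc
    refine ⟨trivial, ?_⟩
    refine Reach1.map h (by rw [node_q]; exact hC) ?_
    unfold step2 at hc
    have h2 := ht c
    by_cases hP : viol c.reverse = true
    · rw [if_pos hP] at hc
      rw [hP] at h2
      refine h2.trans_reach1 ?_
      rcases go_inc (prog := prog) c.reverse with ⟨d, hd, hr⟩ | ⟨hd, _⟩
      · rw [List.reverse_reverse, hc] at hd
        cases hd
        exact hr
      · rw [List.reverse_reverse, hc] at hd
        cases hd
    · rw [if_neg hP] at hc
      cases hc
      rw [Bool.not_eq_true] at hP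
      rw [hP] at h2
      refine h2.trans_reach1 ?_
      have := go_append (prog := prog) c.reverse
      rw [node, List.reverse_cons]
      exact this
  · intro c _ hc
    unfold step2 at hc
    have h2 := ht c
    by_cases hP : viol c.reverse = true
    · rw [if_pos hP] at hc
      rw [hP] at h2
      rcases go_inc (prog := prog) c.reverse with ⟨d, hd, _⟩ | ⟨_, L, R, hr⟩
      · rw [List.reverse_reverse, hc] at hd
        cases hd
      · have h1 : Reach δ' (mapC f (node c)) (mapC f ⟨.I2, L, cons false R⟩) := Reach.map h (by rw [node_q]; exact hC) (h2.trans hr)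
        exact h1.stops (stops_of_none hI)
    · rw [if_neg hP] at hc
      cases hc

/-- The machine halts iff `G` is false. -/
theorem halts_iff_of (h : ∀ q, ok q → ∀ b w d r, del prog q b = some (w, d, r) → ok r ∧ δ' (f q) b = some (w, d, f r)) (hRV : ok .RV) (hC : ok (.C 0))
    (hI : δ' (f .I2) false = none) (hl : Tok.lit true ∈ prog) {viol : List Bool → Bool} (hv : ∀ b, Runs prog b 0 (true, 0, []) (viol b)) {G : Prop}
    (hgood : G → ∃ β : ℕ → Bool, ∀ n, viol (pre β n).reverse ≠ true)
    (hbad : ¬ G → ∀ β : ℕ → Bool, ∃ N, ∀ M, ∃ n, M ≤ n ∧ ∀ u : List Bool, u.length = n → viol (u ++ pre β N).reverse = true) :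
    Stops δ' ⟨f .RV, blank, blank⟩ ↔ ¬ G := by
  rw [loop_iff h hRV hC hI hl hv]
  constructor
  · rintro ⟨k, hk⟩ hG
    obtain ⟨β, hβ⟩ := hgood hG
    refine inc_never' (fun c => viol c.reverse = true) hβ (b₀ := [false]) ?_ k hk
    cases h0 : β 0 with
    | false => exact Or.inl ⟨1, by rw [pre, pre, h0]⟩
    | true => exact Or.inr ⟨[], 0, rfl, h0⟩
  · intro hG
    exact inc_ends (fun c => viol c.reverse = true) (hbad hG) [false]

end

end Pool.Agent.Helper19.ZH3
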