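import Pool.Agent.Helper19.ZH3.Sem

/-!
# Project ZH (MP_f907b0), second machine: states and transitions, generic in the text

Cells of four bits `v a d e` at `4 i, ..., 4 i + 3` (`v`: the bit, `a`: alive for the address sieve, `d`: alive for the digit sieve, `e = 1` iff a next cell exists); position `-1` is always `0`;
`PC = 1 ^ PC` at `-2, -3, ...`; then the separator `0`, then `1 ^ need` (copy mode) or `0 1 ^ need` (skip mode).
`del prog`: the transitions for the text `prog`. All transitions that are never used are `none`.
-/

set_option autoImplicit false

namespace Pool.Agent.Helper19.ZH3

/-- States. -/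
inductive St : Type
  | C (i : ℕ)
  | R (s : Bool) | RR (s : Bool) | S (s : Bool)
  | K (k : ℕ) | O (k : ℕ) | Ks | M | KX | VX | KJ (k : ℕ) | VJ | G | Gp
  | P (d : Bool) | Q (d : Bool) | q (d : Bool) | X | Y
  | WL | WJ | WX | Wr | Lv | Ka | Jv
  | AV (p : Bool) | AA (p : Bool) | AD (p : Bool) | AE (p : Bool)
  | NV | NA | ND | NE
  | DD (p : Bool) | DA (p : Bool) | DV (p : Bool) | DE (p : Bool)
  | NLd | NLa | NLv | NLe
  | FV | FA | FD | FE | GV
  | ALe | ALd | ALa | ALv | RVf
  | RV | RA | RD | RE (b : Bool)
  | I0 | I1 | I2 | I3
  | rV | rA | rD | rE (b : Bool)
  | U1 | U2 | Er | EJ | Tv
  deriving DecidableEq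

/-- What a chain state does on the separator. -/
def Tok.act : Tok → Bool × Bool × St
  | .lit s => (true, true, .R s)
  | .tt => (false, false, .M)
  | .cp k => (false, false, .K k)
  | .oc k => (false, false, .O k)
  | .sc => (false, false, .Ks)
  | .rw => (true, true, .Wr)
  | .opL => (true, true, .WL)
  | .opJ => (true, true, .WJ)
  | .opX => (true, true, .WX)
  | .xc => (false, false, .KX)
  | .jc k => (false, false, .KJ k)
  | .je => (false, true, .EJ)

/-- The transitions: (written symbol, direction (`true` = right), next state). -/
def del (prog : List Tok) : St → Bool → Option (Bool × Bool × St)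
  -- chain
  | .C 0, false => some (true, true, .Er)
  | .C 0, true => some (true, false, .C 1)
  | .C (i + 1), false => (prog[i]?).map Tok.act
  | .C (i + 1), true => if i + 1 < prog.length then some (true, false, .C (i + 2)) else none
  -- walkers for an emission
  | .R s, true => some (true, true, .R s)
  | .R s, false => some (false, true, .AV s)
  | .RR s, true => some (true, true, .RR s)
  | .RR s, false => some (false, true, .S s)
  | .S s, true => some (true, true, .R s)
  | .S _, false => some (false, true, .Gp)
  -- copy tokens
  | .K (k + 2), false => some (true, false, .K (k + 1))
  | .K 1, false => some (true, true, .G)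
  | .K 0, false => none
  | .K _, true => some (true, true, .G)
  | .O (k + 2), false => some (true, false, .O (k + 1))
  | .O 1, false => some (true, true, .RR true)
  | .O 0, false => none
  | .O _, true => some (true, true, .G)
  | .Ks, false => some (false, false, .O 1)
  | .Ks, true => some (true, true, .G)
  | .M, false => some (true, true, .RR true)
  | .M, true => some (false, true, .C (prog.idxOf (.lit true) + 1))
  | .KX, false => some (true, true, .VX)
  | .KX, true => some (true, true, .G)
  | .VX, false => some (false, true, .WX)
  | .VX, true => none
  | .KJ (k + 2), false => some (true, false, .KJ (k + 1))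
  | .KJ 1, false => some (true, true, .VJ)
  | .KJ 0, false => none
  | .KJ _, true => some (true, true, .G)
  | .VJ, true => some (true, true, .VJ)
  | .VJ, false => some (false, true, .WJ)
  | .G, true => some (true, true, .G)
  | .G, false => some (false, true, .Gp)
  | .Gp, true => some (true, true, .Gp)
  | .Gp, false => some (false, true, .NV)
  -- arrival of a digit
  | .P d, true => some (true, false, .P d)
  | .P d, false => some (false, false, .Q d)
  | .Q d, b => some (b, false, .q d)
  | .q d, true => some (true, false, .q d)
  | .q true, false => some (true, true, .RR true)
  | .q false, false => some (false, true, .X)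
  | .X, true => some (false, true, .Y)
  | .X, false => none
  | .Y, true => some (true, true, .RR false)
  | .Y, false => some (true, true, .S false)
  -- walkers to the array
  | .WL, true => some (true, true, .WL)
  | .WL, false => some (false, true, .Lv)
  | .WJ, true => some (true, true, .WJ)
  | .WJ, false => some (false, true, .Jv)
  | .WX, true => some (true, true, .WX)
  | .WX, false => some (false, true, .FV)
  | .Wr, true => some (true, true, .Wr)
  | .Wr, false => some (false, true, .rV)
  | .Lv, false => some (false, true, .Ka)
  | .Lv, true => some (true, false, .U1)
  | .Ka, true => some (true, false, .RVf)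
  | .Ka, false => some (true, true, .FD)
  | .Jv, false => some (false, true, .RA)
  | .Jv, true => some (true, true, .FA)
  -- address sieve (right)
  | .AV p, b => some (b, true, .AA p)
  | .AA p, false => some (false, true, .AD p)
  | .AA p, true => some (!p, true, .AD (!p))
  | .AD p, b => some (b, true, .AE p)
  | .AE p, true => some (true, true, .AV p)
  | .AE _, false => some (false, false, .NLd)
  -- neutral right, digit sieve (left)
  | .NV, b => some (b, true, .NA)
  | .NA, b => some (b, true, .ND)
  | .ND, b => some (b, true, .NE)
  | .NE, true => some (true, true, .NV)
  | .NE, false => some (false, false, .DD true)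
  | .DD p, false => some (false, false, .DA p)
  | .DD p, true => some (!p, false, .DA (!p))
  | .DA p, b => some (b, false, .DV p)
  | .DV p, b => some (b, false, .DE p)
  | .DE p, true => some (true, false, .DD p)
  | .DE p, false => some (false, false, .P (!p))
  -- neutral left
  | .NLd, b => some (b, false, .NLa)
  | .NLa, b => some (b, false, .NLv)
  | .NLv, b => some (b, false, .NLe)
  | .NLe, true => some (true, false, .NLd)
  | .NLe, false => some (false, false, .C 0)
  -- find
  | .FV, b => some (b, true, .FA)
  | .FA, true => some (true, false, .GV)
  | .FA, false => some (true, true, .FD)
  | .FD, _ => some (true, true, .FE)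
  | .FE, true => some (true, true, .FV)
  | .FE, false => some (false, false, .I1)
  | .GV, true => some (true, false, .ALe)
  | .GV, false => some (false, true, .RA)
  | .ALe, true => some (true, false, .ALd)
  | .ALe, false => some (false, true, .RVf)
  | .ALd, true => some (true, false, .ALa)
  | .ALd, false => none
  | .ALa, true => some (true, false, .ALv)
  | .ALa, false => none
  | .ALv, b => some (b, false, .ALe)
  | .RVf, b => some (!b, true, .RA)
  -- reset (right); with clean flags: to the increment
  | .RV, b => some (b, true, .RA)
  | .RA, _ => some (true, true, .RD)
  | .RD, b => some (true, true, .RE b)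
  | .RE _, true => some (true, true, .RV)
  | .RE false, false => some (false, false, .NLd)
  | .RE true, false => some (false, false, .I3)
  -- the ring: increment (entered at `I3` on the bit `d` of the last cell); clear `m` (entered at `I1` on the bit `d` of the last cell)
  | .I0, true => some (true, false, .I1)
  | .I0, false => some (false, true, .GV)
  | .I1, true => some (false, false, .I2)
  | .I1, false => some (true, false, .NLe)
  | .I2, true => some (true, false, .I3)
  | .I2, false => none
  | .I3, b => some (b, false, .I0)
  -- back to the first digit; with clean flags: append
  | .rV, b => some (b, true, .rA)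
  | .rA, b => some (b, true, .rD)
  | .rD, b => some (true, true, .rE b)
  | .rE _, true => some (true, true, .rV)
  | .rE false, false => some (false, false, .NLd)
  | .rE true, false => some (true, true, .RV)
  -- end of a test
  | .U1, false => some (false, false, .U2)
  | .U1, true => none
  | .U2, true => some (true, false, .U2)
  | .U2, false => some (false, true, .Er)
  | .Er, true => some (false, true, .Er)
  | .Er, false => some (false, true, .Tv)
  | .EJ, true => some (false, true, .EJ)
  | .EJ, false => some (false, true, .Jv)
  | .Tv, true => some (true, true, .RA)
  | .Tv, false => some (true, true, .rA)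

end Pool.Agent.Helper19.ZH3
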