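import Pool.Agent.Helper19.ZH3.Mach

/-!
# Project ZH (MP_f907b0), second machine: the array of cells, passes over the array

* `Cell`; `mk vs as ds`: the array with the bits `vs`, the address flags `as`, the digit flags `ds`.
* The tape is: `L` (from position `-2` to the left), then blocks `e v a d`, one for each cell; the bit `e` is `0` in the first block (position `-1`), otherwise `1`; then blanks.
* `Ec q L pre post`: the machine in the state `q` on the bit `e` between the cells `pre` and the cells `post`; `Vc q L pre post`: on the bit `v` of the first cell of `post`;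
  `Ac`: on its bit `a`; `Dc q L pre post`: on the bit `d` of the last cell of `pre`. `Home q L cs`: at position `-2`.
* `RightPass.run`, `RightPass.part`, `LeftPass.run`: from one cell to the whole array.
-/

set_option autoImplicit false

namespace Pool.Agent.Helper19.ZH3

open Pool.Agent.Helper19.ZH

/-- On the bit `e` between `pre` and `post`. -/
def Ec (q : St) (L : Str) (pre : List Cell) : List Cell → C St
  | [] => ⟨q, lefts L pre, blank⟩
  | c :: cs => ⟨q, lefts L pre, cons (eb pre) (cons c.v (cons c.a (cons c.d (rt cs))))⟩

/-- On the bit `v` of the first cell of `post`. -/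
def Vc (q : St) (L : Str) (pre : List Cell) : List Cell → C St
  | [] => ⟨q, lefts L pre, blank⟩
  | c :: cs => ⟨q, cons (eb pre) (lefts L pre), cons c.v (cons c.a (cons c.d (rt cs)))⟩

/-- On the bit `a` of the first cell of `post`. -/
def Ac (q : St) (L : Str) (pre : List Cell) : List Cell → C St
  | [] => ⟨q, lefts L pre, blank⟩
  | c :: cs => ⟨q, cons c.v (cons (eb pre) (lefts L pre)), cons c.a (cons c.d (rt cs))⟩

/-- On the bit `d` of the last cell of `pre`. -/
def Dc (q : St) (L : Str) (pre post : List Cell) : C St := CL q (lefts L pre) (rt post)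

/-- At position `-2`. -/
def Home (q : St) (L : Str) : List Cell → C St
  | [] => CL q L blank
  | c :: cs => CL q L (cons false (cons c.v (cons c.a (cons c.d (rt cs)))))

section

variable (δ : St → Bool → Option (Bool × Bool × St))

/-- A pass to the right: the states `V i`, ..., `E i` on the four bits of a cell, the abstract state `i`; the cell `c` becomes `f i c`. -/
structure RightPass {ι : Type} (V E : ι → St) (nx : ι → Cell → ι) (f : ι → Cell → Cell) (ok : Cell → Prop) : Prop where
  one : ∀ i (c : Cell), ok c → ∀ (L R : Str), Reach δ ⟨V i, L, cons c.v (cons c.a (cons c.d R))⟩ ⟨E (nx i c), cons (f i c).d (cons (f i c).a (cons (f i c).v L)), R⟩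
  nxt : ∀ i, δ (E i) true = some (true, true, V i)

/-- A pass to the left: the states `D i`, ..., `E i`. -/
structure LeftPass {ι : Type} (D E : ι → St) (nx : ι → Cell → ι) (f : ι → Cell → Cell) (ok : Cell → Prop) : Prop where
  one : ∀ i (c : Cell), ok c → ∀ (L R : Str), Reach δ (CL (D i) (cons c.d (cons c.a (cons c.v L))) R) (CL (E (nx i c)) L (cons (f i c).v (cons (f i c).a (cons (f i c).d R))))
  nxt : ∀ i, δ (E i) true = some (true, false, D i)

variable {δ} {ι : Type} {V E D : ι → St} {nx : ι → Cell → ι} {f : ι → Cell → Cell} {ok : Cell → Prop}

theorem Ec_eq (q : St) (L : Str) (pre post : List Cell) (h : pre ≠ []) : Ec q L pre post = ⟨q, lefts L pre, rt post⟩ := by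
  cases post with
  | nil => rfl
  | cons c cs => rw [Ec, eb_of_ne h]; rfl

/-- One cell. -/
theorem RightPass.cell (h : RightPass δ V E nx f ok) (i : ι) (L : Str) (pre : List Cell) (c : Cell) (post : List Cell) (hc : ok c) :
    Reach δ (Vc (V i) L pre (c :: post)) (Ec (E (nx i c)) L (pre ++ [f i c]) post) := by
  rw [Ec_eq _ _ _ _ (by simp), lefts_snoc]
  exact h.one i c hc _ _

/-- From the bit `v` of a cell to the bit `v` of a later cell. -/
theorem RightPass.part (h : RightPass δ V E nx f ok) (mid : List Cell) (i : ι) (L : Str) (pre : List Cell) (c : Cell) (post : List Cell) (hok : ∀ c ∈ mid, ok c) :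
    Reach δ (Vc (V i) L pre (mid ++ c :: post)) (Vc (V (fin nx i mid)) L (pre ++ scan nx f i mid) (c :: post)) := by
  induction mid generalizing i pre with
  | nil => simpa [scan, fin] using Reach.refl _
  | cons a mid ih =>
    rw [List.cons_append]
    refine (h.cell i L pre a _ (hok a List.mem_cons_self)).trans ?_
    have h1 : Reach δ (Ec (E (nx i a)) L (pre ++ [f i a]) (mid ++ c :: post)) (Vc (V (nx i a)) L (pre ++ [f i a]) (mid ++ c :: post)) := by
      cases mid with
      | nil =>
        simp only [List.nil_append, Ec, Vc, eb_append_singleton]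
        exact (Reach1.right (h.nxt _)).reach
      | cons b mid =>
        simp only [List.cons_append, Ec, Vc, eb_append_singleton]
        exact (Reach1.right (h.nxt _)).reach
    refine h1.trans ?_
    have := ih (nx i a) (pre ++ [f i a]) (fun c hc => hok c (List.mem_cons_of_mem _ hc))
    simpa [scan, fin] using this

/-- From the bit `v` of a cell to the bit `e` behind the array. -/
theorem RightPass.run (h : RightPass δ V E nx f ok) (mid : List Cell) (hne : mid ≠ []) (i : ι) (L : Str) (pre : List Cell) (hok : ∀ c ∈ mid, ok c) :
    Reach δ (Vc (V i) L pre mid) (Ec (E (fin nx i mid)) L (pre ++ scan nx f i mid) []) := by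
  obtain ⟨mid, c, rfl⟩ : ∃ m c, mid = m ++ [c] := ⟨_, _, (List.dropLast_append_getLast hne).symm⟩
  refine (h.part mid i L pre c [] (fun c hc => hok c (by simp [hc]))).trans ?_
  rw [scan_append, fin_append, ← List.append_assoc]
  exact h.cell _ L _ c [] (hok c (by simp))

/-- The turn at the end of the array. -/
theorem turn {q q' : St} {L : Str} {cs : List Cell} (h : δ q false = some (false, false, q')) : Reach1 δ (Ec q L cs []) (Dc q' L cs []) := by
  have : Reach1 δ ⟨q, lefts L cs, cons false blank⟩ (CL q' (lefts L cs) (cons false blank)) := Reach1.to_left h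
  rwa [cons_blank] at this

/-- From the bit `d` of the last cell of `mid` to the bit `e` before `mid`. -/
theorem LeftPass.run (h : LeftPass δ D E nx f ok) (mid : List Cell) (hne : mid ≠ []) (i : ι) (L : Str) (pre post : List Cell) (hok : ∀ c ∈ mid, ok c) :
    Reach δ (Dc (D i) L (pre ++ mid) post) (Ec (E (fin nx i mid.reverse)) L pre ((scan nx f i mid.reverse).reverse ++ post)) := by
  induction mid using List.reverseRecOn generalizing i post with
  | nil => exact absurd rfl hne
  | append_singleton mid c ih =>
    rw [← List.append_assoc, Dc, lefts_snoc]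
    refine (h.one i c (hok c (by simp)) _ _).trans ?_
    rcases List.eq_nil_or_concat mid with rfl | ⟨m, a, rfl⟩
    · simp only [List.append_nil, List.nil_append, List.reverse_singleton, scan, fin]
      exact Reach.refl _
    · rw [show eb (pre ++ m.concat a) = true by simp [List.concat_eq_append, ← List.append_assoc]]
      refine (Reach1.CL_left (h.nxt (nx i c))).reach.trans ?_
      have := ih (by simp) (nx i c) (f i c :: post) (fun c hc => hok c (List.mem_append_left _ hc))
      rw [Dc] at this
      have e : (scan nx f i (m.concat a ++ [c]).reverse).reverse ++ post = (scan nx f (nx i c) (m.concat a).reverse).reverse ++ f i c :: post := by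
        rw [List.reverse_append]
        simp [scan]
      have e' : fin nx i (m.concat a ++ [c]).reverse = fin nx (nx i c) (m.concat a).reverse := by
        rw [List.reverse_append]
        rfl
      rw [e, e']
      exact this

end

end Pool.Agent.Helper19.ZH3
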