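import Pool.Agent.Helper19.ZH3.Pass

/-!
# Project ZH (MP_f907b0), second machine: the passes of the machine
-/

set_option autoImplicit false

namespace Pool.Agent.Helper19.ZH3

open Pool.Agent.Helper19.ZH

variable (prog : List Tok)

/-- Address sieve. -/
theorem pass_A : RightPass (del prog) St.AV St.AE (fun p c => xor p c.a) (fun p c => ⟨c.v, c.a && !p, c.d⟩) (fun _ => True) where
  one := by
    rintro p ⟨v, a, d⟩ _ L R
    refine ⟨3, ?_⟩
    cases p <;> cases v <;> cases a <;> cases d <;> rfl
  nxt := fun _ => rfl

/-- Neutral to the right. -/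
theorem pass_N : RightPass (del prog) (fun _ : Unit => St.NV) (fun _ => St.NE) (fun i _ => i) (fun _ c => c) (fun _ => True) where
  one := by
    rintro p ⟨v, a, d⟩ _ L R
    refine ⟨3, ?_⟩
    cases v <;> cases a <;> cases d <;> rfl
  nxt := fun _ => rfl

/-- Digit sieve. -/
theorem pass_D : LeftPass (del prog) St.DD St.DE (fun p c => xor p c.d) (fun p c => ⟨c.v, c.a, c.d && !p⟩) (fun _ => True) where
  one := by
    rintro p ⟨v, a, d⟩ _ L R
    refine ⟨3, ?_⟩
    cases p <;> cases v <;> cases a <;> cases d <;> rfl
  nxt := fun _ => rfl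

/-- Neutral to the left. -/
theorem pass_NL : LeftPass (del prog) (fun _ : Unit => St.NLd) (fun _ => St.NLe) (fun i _ => i) (fun _ c => c) (fun _ => True) where
  one := by
    rintro p ⟨v, a, d⟩ _ L R
    refine ⟨3, ?_⟩
    cases v <;> cases a <;> cases d <;> rfl
  nxt := fun _ => rfl

/-- Find: over dead cells. -/
theorem pass_F : RightPass (del prog) (fun _ : Unit => St.FV) (fun _ => St.FE) (fun i _ => i) (fun _ c => ⟨c.v, true, true⟩) (fun c => c.a = false) where
  one := by
    rintro p ⟨v, a, d⟩ h L R
    change a = false at h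
    subst h
    refine ⟨3, ?_⟩
    cases v <;> cases d <;> rfl
  nxt := fun _ => rfl

/-- Back to cell 0, over clean cells. -/
theorem pass_AL : LeftPass (del prog) (fun _ : Unit => St.ALd) (fun _ => St.ALe) (fun i _ => i) (fun _ c => c) (fun c => c.a = true ∧ c.d = true) where
  one := by
    rintro p ⟨v, a, d⟩ ⟨h, h'⟩ L R
    change a = true at h
    change d = true at h'
    subst h h'
    refine ⟨3, ?_⟩
    cases v <;> rfl
  nxt := fun _ => rfl

/-- Reset. -/
theorem pass_R : RightPass (del prog) (fun _ : Bool => St.RV) St.RE (fun _ c => c.d) (fun _ c => ⟨c.v, true, true⟩) (fun _ => True) where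
  one := by
    rintro p ⟨v, a, d⟩ h L R
    refine ⟨3, ?_⟩
    cases v <;> cases a <;> cases d <;> rfl
  nxt := fun p => by cases p <;> rfl

/-- To cell 0, over clean cells, in order to clear `m`: the flags `d` are cleared. -/
theorem pass_CL : LeftPass (del prog) (fun _ : Unit => St.I1) (fun _ => St.I0) (fun i _ => i) (fun _ c => ⟨c.v, true, false⟩) (fun c => c.a = true ∧ c.d = true) where
  one := by
    rintro p ⟨v, a, d⟩ ⟨h, h'⟩ L R
    change a = true at h
    change d = true at h'
    subst h h'
    refine ⟨3, ?_⟩
    cases v <;> rfl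
  nxt := fun _ => rfl

/-- Back to the first digit. -/
theorem pass_r : RightPass (del prog) (fun _ : Bool => St.rV) St.rE (fun _ c => c.d) (fun _ c => ⟨c.v, c.a, true⟩) (fun _ => True) where
  one := by
    rintro p ⟨v, a, d⟩ h L R
    refine ⟨3, ?_⟩
    cases v <;> cases a <;> cases d <;> rfl
  nxt := fun p => by cases p <;> rfl

/-- The carry, over clean cells with `v = 1`. -/
theorem pass_I : LeftPass (del prog) (fun _ : Unit => St.I3) (fun _ => St.I2) (fun i _ => i) (fun _ _ => ⟨false, true, true⟩) (fun c => c = ⟨true, true, true⟩) where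
  one := by
    rintro p c rfl L R
    exact ⟨3, rfl⟩
  nxt := fun _ => rfl

/-! ## home -/

/-- From the last of the cells `pre` to position `-2`. -/
theorem nl_home (L : Str) (pre post : List Cell) (h : pre ≠ []) : Reach (del prog) (Dc .NLd L pre post) (Home (.C 0) L (pre ++ post)) := by
  have h1 := (pass_NL prog).run pre h () L [] post (fun _ _ => trivial)
  rw [scan_id, List.reverse_reverse, List.nil_append] at h1
  refine h1.trans ?_
  obtain ⟨c, cs, rfl⟩ := List.exists_cons_of_ne_nil h
  exact (Reach1.to_left (by rfl)).reach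

/-- An emission: from the bit `v` of cell 0 to position `-2`. -/
theorem emit (s : Bool) (L : Str) {vs as ds : List Bool} (h1 : as.length = vs.length) (h2 : ds.length = vs.length) (h : vs ≠ []) :
    Reach (del prog) (Vc (.AV s) L [] (mk vs as ds)) (Home (.C 0) L (mk vs (sv s as) ds)) := by
  have hne := mk_ne_nil h1 h2 h
  have h3 := (pass_A prog).run (mk vs as ds) hne s L [] (fun _ _ => trivial)
  rw [scan_A s h1 h2, List.nil_append] at h3
  refine h3.trans ?_
  refine (turn (q' := .NLd) (by rfl)).reach.trans ?_
  have := nl_home prog L (mk vs (sv s as) ds) [] (mk_ne_nil (by simpa using h1) h2 h)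
  rwa [List.append_nil] at this

/-- A digit is read: from the bit `v` of cell 0 to position `-2`. -/
theorem digit (L : Str) {vs as ds : List Bool} (h1 : as.length = vs.length) (h2 : ds.length = vs.length) (h : vs ≠ []) :
    Reach (del prog) (Vc .NV L [] (mk vs as ds)) (Home (.P (!ph true ds.reverse)) L (mk vs as (sv true ds.reverse).reverse)) := by
  have hne := mk_ne_nil h1 h2 h
  have h3 := (pass_N prog).run (mk vs as ds) hne () L [] (fun _ _ => trivial)
  rw [scan_id, List.nil_append] at h3
  refine h3.trans ?_
  refine (turn (q' := .DD true) (by rfl)).reach.trans ?_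
  have h4 := (pass_D prog).run (mk vs as ds) hne true L [] [] (fun _ _ => trivial)
  rw [mk_reverse h1 h2, scan_D true (by simpa using h1) (by simpa using h2), fin_D true (by simpa using h1) (by simpa using h2),
    mk_reverse (by simpa using h1) (by simpa using h2), List.reverse_reverse, List.reverse_reverse, List.nil_append, List.append_nil] at h4
  refine h4.trans ?_
  have hne2 : mk vs as (sv true ds.reverse).reverse ≠ [] := mk_ne_nil h1 (by simpa using h2) h
  obtain ⟨c, cs, hcs⟩ := List.exists_cons_of_ne_nil hne2
  rw [hcs]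
  exact (Reach1.to_left (by rfl)).reach

end Pool.Agent.Helper19.ZH3
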