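import Pool.Agent.Helper19.ZH3.Ops

/-!
# Project ZH (MP_f907b0), second machine: one token, and a whole test
-/

set_option autoImplicit false

namespace Pool.Agent.Helper19.ZH3

open Pool.Agent.Helper19.ZH

open Pool.Agent.Helper62.ZH (Tree)

variable {prog : List Tok}

/-- First visit of the tokens `opL`, `opJ`, `opX`: to the bit `v` of cell 0. -/
theorem tok_op {p : ℕ} {t : Tok} {w q : St} (ht : prog[p]? = some t) (ha : t.act = (true, true, w)) (h1 : del prog w true = some (true, true, w))
    (h2 : del prog w false = some (false, true, q)) (cs : List Cell) (hne : cs ≠ []) :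
    Reach (del prog) (Home (.C 0) (Z0 (p + 1)) cs) (Vc q (Z0 (p + 2)) [] cs) := by
  have e : Z0 (p + 1) = rep (p + 1) true (cons false blank) := by simp [Z0]
  rw [e]
  refine (fetch ht _ _).trans ?_
  have h0 := del_C ht
  rw [ha] at h0
  refine (Reach1.CL_right h0).reach.trans ?_
  have := walk_arr prog h1 h2 (p + 1) (cons true blank) cs hne
  have e2 : rep (p + 1) true (cons true blank) = Z0 (p + 2) := by rw [← rep_succ']; rfl
  rw [e2] at this
  exact this

/-- First visit of `jc`: the need is written. -/
theorem writeJ (k : ℕ) (R : Str) : Reach (del prog) (CL (.KJ (k + 1)) blank (cons false R)) ⟨.VJ, rep (k + 1) true blank, cons false R⟩ := by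
  have key : ∀ k m : ℕ, Reach (del prog) (CL (.KJ (k + 1)) blank (rep m true (cons false R))) ⟨.VJ, rep (k + m + 1) true blank, cons false R⟩ := by
    intro k
    induction k with
    | zero =>
      intro m
      rw [show (blank : Str) = cons false blank from cons_blank.symm]
      refine (Reach1.CL_right (w := true) (q' := St.VJ) (by rfl)).reach.trans ?_
      refine (walk_right (by rfl) m _ _).trans ?_
      rw [cons_blank, Nat.zero_add, rep_succ']
      exact Reach.refl _
    | succ k ih =>
      intro m
      rw [show (blank : Str) = cons false blank from cons_blank.symm]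
      refine (Reach1.CL_left (w := true) (q' := St.KJ (k + 1)) (by rfl)).reach.trans ?_
      rw [cons_blank, ← rep_succ, show k + 1 + m + 1 = k + (m + 1) + 1 by omega]
      exact ih (m + 1)
  exact key k 0

theorem first_jc {p k : ℕ} (ht : prog[p]? = some (.jc (k + 1))) (cs : List Cell) (hne : cs ≠ []) :
    Reach (del prog) (Home (.C 0) (Z0 (p + 1)) cs) (Vc .Jv (Zc (p + 1) (k + 1)) [] cs) := by
  have e : Z0 (p + 1) = rep (p + 1) true (cons false blank) := by simp [Z0]
  rw [e]
  refine (fetch ht _ _).trans ?_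
  refine (Reach1.CL_left (del_C ht)).reach.trans ?_
  refine (writeJ k _).trans ?_
  refine (Reach1.right (w := false) (q' := St.WJ) (by rfl)).reach.trans ?_
  exact walk_arr prog (w := St.WJ) (q := St.Jv) (by rfl) (by rfl) (p + 1) _ _ hne

theorem first_xc {p : ℕ} (ht : prog[p]? = some .xc) (cs : List Cell) (hne : cs ≠ []) :
    Reach (del prog) (Home (.C 0) (Z0 (p + 1)) cs) (Vc .FV (Zc (p + 1) 1) [] cs) := by
  have e : Z0 (p + 1) = rep (p + 1) true (cons false (cons false blank)) := by simp [Z0]
  rw [e]
  refine (fetch ht _ _).trans ?_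
  refine (Reach1.CL_left (del_C ht)).reach.trans ?_
  refine (Reach1.CL_right (w := true) (q' := St.VX) (by rfl)).reach.trans ?_
  refine (Reach1.right (w := false) (q' := St.WX) (by rfl)).reach.trans ?_
  exact walk_arr prog (w := St.WX) (q := St.FV) (by rfl) (by rfl) (p + 1) _ _ hne

/-- The configuration before a token. -/
def Bef (p : ℕ) (m : Bool) (b w ds : List Bool) : C St := Home (.C 0) (Z0 (p + 1)) (mk (m :: b) (em (List.replicate (b.length + 1) true) w) ds)

/-- One token. -/
theorem step_ok (hl : Tok.lit true ∈ prog) {p : ℕ} {t : Tok} {b : List Bool} (ht : prog[p]? = some t) {s s' : Bool × ℕ × List Bool} (h : Step b t s s') {ds : List Bool}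
    (hds : DI (b.length + 1) s.2.1 ds) : ∃ ds', DI (b.length + 1) s'.2.1 ds' ∧ Reach (del prog) (Bef p s.1 b s.2.2 ds) (Bef (p + 1) s'.1 b s'.2.2 ds') := by
  have hn : 0 < b.length + 1 := Nat.succ_pos _
  have hv : ∀ m : Bool, (m :: b).length = b.length + 1 := fun m => rfl
  have hc : ∀ m : Bool, (m :: b) ≠ [] := fun m => List.cons_ne_nil _ _
  have he : ∀ w : List Bool, (em (List.replicate (b.length + 1) true) w).length = b.length + 1 := fun w => by simp
  have hne : ∀ (m : Bool) (w : List Bool) {i : ℕ} {ds : List Bool}, DI (b.length + 1) i ds → mk (m :: b) (em (List.replicate (b.length + 1) true) w) ds ≠ [] :=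
    fun m w i ds h => mk_ne_nil (he w) h.len (hc m)
  cases h with
  | lit s m i w =>
    refine ⟨ds, hds, ?_⟩
    have := tok_lit (prog := prog) ht (vs := m :: b) (as := em (List.replicate (b.length + 1) true) w) (ds := ds) (he w) hds.len (hc m)
    rw [Bef, Bef, em_append]
    exact this
  | tt m i w =>
    refine ⟨ds, hds, ?_⟩
    have := tok_tt (prog := prog) ht hl (vs := m :: b) (as := em (List.replicate (b.length + 1) true) w) (ds := ds) (he w) hds.len (hc m)
    rw [Bef, Bef, em_append]
    exact this
  | cp ts m i j w hts hr =>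
    obtain ⟨k, hk⟩ : ∃ k, ts.length = k + 1 := ⟨ts.length - 1, by have := List.length_pos_of_ne_nil hts; omega⟩
    rw [hk] at ht
    obtain ⟨d', hd', hr'⟩ := copy_trees (prog := prog) ht trivial hn (hv m) ts hr hts (em (List.replicate (b.length + 1) true) w) ds (he w) hds
    refine ⟨d', hd', ?_⟩
    rw [Bef, Bef, em_append]
    rw [hk] at hr'
    exact (first_cp ht _ (hne m w hds)).trans hr'
  | oc ts m i j w hts hr =>
    obtain ⟨k, hk⟩ : ∃ k, ts.length = k + 1 := ⟨ts.length - 1, by have := List.length_pos_of_ne_nil hts; omega⟩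
    rw [hk] at ht
    obtain ⟨d', hd', hr'⟩ := copy_trees (prog := prog) ht trivial hn (hv m) ts hr hts (sv true (em (List.replicate (b.length + 1) true) w)) ds (by simp) hds
    refine ⟨d', hd', ?_⟩
    rw [Bef, Bef, em_append, em_cons]
    rw [hk] at hr'
    exact (first_oc ht (he w) hds.len (hc m)).trans hr'
  | sc s t m i j k w hr hr2 =>
    obtain ⟨d', hd', hr'⟩ := skip_tree (prog := prog) (p := p) hn (hv m) hr 0 (em (List.replicate (b.length + 1) true) w) ds (he w) hds
    obtain ⟨d2, hd2, hr2'⟩ := copy_tree (prog := prog) ht trivial hn (hv m) hr2 0 (em (List.replicate (b.length + 1) true) w) d' (he w) hd'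
    refine ⟨d2, hd2, ?_⟩
    rw [Bef, Bef, em_append]
    exact (first_sc ht _ (hne m w hds)).trans (hr'.trans hr2')
  | rw m i w hi =>
    refine ⟨_, DI.zero _, ?_⟩
    exact tok_rw ht (vs := m :: b) (he w) hds.len (hc m) (hds.last hi)
  | opL i w hi =>
    refine ⟨_, DI.zero _, ?_⟩
    rw [Bef, Bef, ← cln_eq]
    exact (tok_op (w := St.WL) (q := St.Lv) ht rfl rfl rfl _ (hne _ w hds)).trans (core_L _ hds hi)
  | opJ m i w hi =>
    refine ⟨_, DI.zero _, ?_⟩
    rw [Bef, Bef, ← cln_eq]
    exact (tok_op (w := St.WJ) (q := St.Jv) ht rfl rfl rfl _ (hne _ w hds)).trans (core_J _ m hds hi)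
  | opX m i w hi hw =>
    refine ⟨_, DI.zero _, ?_⟩
    rw [Bef, Bef, ← cln_eq]
    exact (tok_op (w := St.WX) (q := St.FV) ht rfl rfl rfl _ (hne _ w hds)).trans (core_X _ m hw hds hi)
  | xc t m i j w hi hw hr =>
    have hrs : Rds (fun i => (b.length + 1).testBit i) 0 [t] j := .cons hr .nil
    obtain ⟨d', hd', hr'⟩ := copy_trees (prog := prog) ht trivial hn (hv (opX m (look b w))) [t] hrs (by simp) (List.replicate (b.length + 1) true) _ (by simp) (DI.zero _)
    refine ⟨d', hd', ?_⟩
    have e : bitss [t] = bits t := by simp [bitss]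
    rw [e] at hr'
    rw [Bef, Bef]
    refine (first_xc ht _ (hne _ w hds)).trans ((core_X _ m hw hds hi).trans ?_)
    refine (again ht trivial (Cln (opX m (look b w)) b) ?_).trans hr'
    rw [cln_eq]
    exact hne _ [] (DI.zero _)
  | jc ts m i j w hts hi hr =>
    obtain ⟨k, hk⟩ : ∃ k, ts.length = k + 1 := ⟨ts.length - 1, by have := List.length_pos_of_ne_nil hts; omega⟩
    rw [hk] at ht
    obtain ⟨d', hd', hr'⟩ := copy_trees (prog := prog) ht trivial hn (hv (opJ m (look b w))) ts hr hts (List.replicate (b.length + 1) true) _ (by simp) (DI.zero _)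
    refine ⟨d', hd', ?_⟩
    rw [hk] at hr'
    rw [Bef, Bef]
    refine (first_jc ht _ (hne _ w hds)).trans ((core_J _ m hds hi).trans ?_)
    refine (again ht trivial (Cln (opJ m (look b w)) b) ?_).trans hr'
    rw [cln_eq]
    exact hne _ [] (DI.zero _)

/-! ## the end of a test -/

/-- The last token: the program counter is erased, to the bit `v` of cell 0. -/
theorem end_je {p : ℕ} (ht : prog[p]? = some .je) (cs : List Cell) (hne : cs ≠ []) : Reach (del prog) (Home (.C 0) (Z0 (p + 1)) cs) (Vc .Jv blank [] cs) := by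
  have e : Z0 (p + 1) = rep (p + 1) true (cons false blank) := by simp [Z0]
  rw [e]
  refine (fetch ht _ _).trans ?_
  refine (Reach1.CL_right (del_C ht)).reach.trans ?_
  refine (walk_right' (q := St.EJ) (w := false) (by rfl) (p + 1) _ _).trans ?_
  rw [cons_blank, rep_blank]
  obtain ⟨c, cs, rfl⟩ := List.exists_cons_of_ne_nil hne
  exact (Reach1.right (w := false) (q' := St.Jv) (by rfl)).reach

/-- A violation. -/
theorem end_viol {p : ℕ} (ht : prog[p]? = some .opL) {vs as ds : List Bool} (h1 : as.length = (true :: vs).length) (h2 : ds.length = (true :: vs).length)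
    (hl : ds.getLast? = some false) : Reach (del prog) (Home (.C 0) (Z0 (p + 1)) (mk (true :: vs) as ds)) (Home (.C 0) blank (Cln true vs)) := by
  have hne := mk_ne_nil h1 h2 (List.cons_ne_nil _ _)
  refine (tok_op (w := St.WL) (q := St.Lv) ht rfl rfl rfl _ hne).trans ?_
  have h3 := ra_home (prog := prog) blank [] _ hne (ld_mk h1 h2 hl)
  rw [List.nil_append, cln_mk h1 h2] at h3
  refine Reach.trans ?_ h3
  obtain ⟨a, as, rfl⟩ := List.exists_cons_of_ne_nil (List.ne_nil_of_length_eq_add_one h1)
  obtain ⟨d, ds, rfl⟩ := List.exists_cons_of_ne_nil (List.ne_nil_of_length_eq_add_one h2)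
  generalize hcs : mk vs as ds = cs
  rw [mk, hcs]
  refine (show Reach (del prog) (Vc .Lv (Z0 (p + 2)) [] (⟨true, a, d⟩ :: cs)) ⟨.U1, Z0 (p + 2), cons false (cons true (cons a (cons d (rt cs))))⟩ from
    (Reach1.left (w := true) (q' := St.U1) (by rfl)).reach).trans ?_
  refine (Reach1.to_left (w := false) (q' := St.U2) (by rfl)).reach.trans ?_
  have e : Z0 (p + 2) = rep (p + 2) true (cons false blank) := by simp [Z0]
  rw [e]
  refine (walk_left (q := St.U2) (by rfl) (p + 2) _ _).trans ?_
  refine (Reach1.CL_right (w := false) (q' := St.Er) (by rfl)).reach.trans ?_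
  refine (walk_right' (q := St.Er) (w := false) (by rfl) (p + 2) _ _).trans ?_
  rw [cons_blank, rep_blank]
  refine (Reach1.right (w := false) (q' := St.Tv) (by rfl)).reach.trans ?_
  exact (Reach1.right (w := true) (q' := St.RA) (by rfl)).reach

/-- A whole test. -/
theorem runs_ok (hl : Tok.lit true ∈ prog) {b : List Bool} {p : ℕ} {s : Bool × ℕ × List Bool} {out : Bool} (h : Runs prog b p s out) {ds : List Bool}
    (hds : DI (b.length + 1) s.2.1 ds) : Reach (del prog) (Bef p s.1 b s.2.2 ds) (Home (.C 0) blank (Cln out b)) := by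
  induction h generalizing ds with
  | je p m i w ht hi =>
    exact (end_je ht _ (mk_ne_nil (by simp) hds.len (List.cons_ne_nil _ _))).trans (core_J _ m hds hi)
  | viol p i w ht hi => exact end_viol ht (by simp) hds.len (hds.last hi)
  | step p t s s' out ht hs _ ih =>
    obtain ⟨ds', hds', hr⟩ := step_ok hl ht hs hds
    exact hr.trans (ih hds')

end Pool.Agent.Helper19.ZH3
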