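import Pool.Agent.Helper19.ZH.Sem

/-!
# Project ZH (MP_f907b0), second machine: tokens and abstract semantics of the text

The same as `Pool.Agent.Helper19.ZH.Sem`, with the tokens of the machine with at most 131 states; the accumulator is `true` at the start.
-/

set_option autoImplicit false

namespace Pool.Agent.Helper19.ZH3

open Pool.Agent.Helper62.ZH (Tree)
open Pool.Agent.Helper19.ZH (bits bitss Rd Rds num look dg)

/-- Tokens of the text. `lit s`: emit `s`; `tt`: emit 1 1; `cp k`: copy `k` trees; `oc k`: emit 1, then copy `k` trees; `sc`: skip a tree, then copy a tree; `rw`: back to the first digit;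
`opL`, `opJ`, `opX`: end of an atom; `xc`: `opX`, then `cp 1`; `jc k`: `opJ`, then `cp k`; `je`: `opJ`, end of the text. -/
inductive Tok : Type
  | lit (s : Bool) | tt | cp (k : ℕ) | oc (k : ℕ) | sc | rw | opL | opJ | opX | xc | jc (k : ℕ) | je
  deriving DecidableEq

/-- One token. The state: accumulator, position in the digits, emitted word. -/
inductive Step (b : List Bool) : Tok → Bool × ℕ × List Bool → Bool × ℕ × List Bool → Prop
  | lit (s m i w) : Step b (.lit s) (m, i, w) (m, i, w ++ [s])
  | tt (m i w) : Step b .tt (m, i, w) (m, i, w ++ [true, true])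
  | cp (ts m i j w) : ts ≠ [] → Rds (dg b) i ts j → Step b (.cp ts.length) (m, i, w) (m, j, w ++ bitss ts)
  | oc (ts m i j w) : ts ≠ [] → Rds (dg b) i ts j → Step b (.oc ts.length) (m, i, w) (m, j, w ++ true :: bitss ts)
  | sc (s t m i j k w) : Rd (dg b) i s j → Rd (dg b) j t k → Step b .sc (m, i, w) (m, k, w ++ bits t)
  | rw (m i w) : 0 < i → Step b .rw (m, i, w) (m, 0, w)
  | opL (i w) : 0 < i → Step b .opL (false, i, w) (ZH.opL (look b w), 0, [])
  | opJ (m i w) : 0 < i → Step b .opJ (m, i, w) (ZH.opJ m (look b w), 0, [])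
  | opX (m i w) : 0 < i → 0 < num w → Step b .opX (m, i, w) (ZH.opX m (look b w), 0, [])
  | xc (t m i j w) : 0 < i → 0 < num w → Rd (dg b) 0 t j → Step b .xc (m, i, w) (ZH.opX m (look b w), j, bits t)
  | jc (ts m i j w) : ts ≠ [] → 0 < i → Rds (dg b) 0 ts j → Step b (.jc ts.length) (m, i, w) (ZH.opJ m (look b w), j, bitss ts)

/-- The rest of a test from the token number `p` on; the last argument is the result (`true`: violation). A test starts with `p = 0` and the state `(true, 0, [])`. -/
inductive Runs (prog : List Tok) (b : List Bool) : ℕ → Bool × ℕ × List Bool → Bool → Prop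
  | je (p m i w) : prog[p]? = some .je → 0 < i → Runs prog b p (m, i, w) (ZH.opJ m (look b w))
  | viol (p i w) : prog[p]? = some .opL → 0 < i → Runs prog b p (true, i, w) true
  | step (p t s s' out) : prog[p]? = some t → Step b t s s' → Runs prog b (p + 1) s' out → Runs prog b p s out

end Pool.Agent.Helper19.ZH3
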